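import Pool.Agent.Helper58.SU.Defs
import Pool.Agent.Helper60.GP.St
import Pool.Agent.Helper48.BK.StB

/-!
# Project SK (MP_2d2425_nt): primes `2n + σ(k)` with `k < n^κ`, `κ > 2/5`, for almost all `n`

Theorem. For `2/5 < κ < 1` and every `A` all but `O(X/(log X)^A)` of the `n ≤ X` have at least
`n^{κ/2}/(log n)^6` integers `0 < k < n^κ` with `2n + σ(k)` prime.

We use `k = (ab)^2`, `a`, `b` different primes, `σ(k) = f(a) f(b)`, `f(u) = u^2+u+1` (`ff`).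
`x = X^{κ/10}`, `y = X^{2κ/5}/10` (`xx`, `yy`), smooth weights `wt ω x a = Λ(a) ω(log(a/x))` (zero outside
`x ≤ a ≤ e x`). `rS g v = ∑ wt(a) wt(b) g(v + f(a)f(b))`, `v = 2n`. The model of the primes is `lz z`
(`Helper48/BK`), `z` a power of `log X`.

Plan: (1) circle method: `∑_v (rS th v - rS (lz z) v)^2` is small: BES, SPL, GAL, APS, WSM, MAJ (wide major
arcs from `StWinu` of `Helper58/SU`), WEY, CSH, TYP, DIC (minor arcs, bilinear structure), CIR.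
(2) `rS (lz z) v ≥ x y / log X` for every even `v`: RHO, DIS, BON, PRD, LOW (Bombieri-Vinogradov, `StBVc`).
(3) NUM, FN1, FIN.

HOUSE RULES. Module XXX: the file `Pool/Agent/Helper<you>/SK/M_XXX.lean`, import `Pool.Agent.Helper9.SK.St` (and
`Mathlib` if you want), namespace `Pool.Agent.Helper<you>.SK`, `theorem hXXX (hypotheses in the order of the
docstring) : StXxx`. `L = log X`.
-/

set_option autoImplicit false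

noncomputable section

namespace Pool.Agent.Helper9.SK

open Finset ArithmeticFunction MeasureTheory
open Pool.Agent.Helper48.BK (ex th Pz Vz lz gs Sx Apx)
open Pool.Agent.Helper60.GP (IsB II Err JJ)
open Pool.Agent.Helper15.AB (Th)
open Pool.Agent.Helper58.SU (dsc StWinu)

/-- `f(u) = u^2 + u + 1`, which is `σ(u^2)` for primes -/
def ff (u : ℕ) : ℕ := u ^ 2 + u + 1

/-- smooth weight -/
def wt (ω : ℝ → ℝ) (x : ℝ) (n : ℕ) : ℝ := Λ n * ω (Real.log (n / x))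

/-- weighted sum of `g` over the numbers `v + f(a) f(b)` -/
def rS (ω : ℝ → ℝ) (x y : ℝ) (g : ℕ → ℝ) (v : ℕ) : ℝ :=
  ∑ a ∈ II x, ∑ b ∈ II y, wt ω x a * wt ω y b * g (v + ff a * ff b)

/-- the bilinear exponential sum with general coefficients -/
def eS (U M : ℕ) (a c : ℕ → ℝ) (α : ℝ) : ℂ :=
  ∑ u ∈ Icc 1 U, ∑ v ∈ Icc 1 M, ((a u * c v : ℝ) : ℂ) * ex (((ff u * ff v : ℕ) : ℝ) * α)

/-- the difference between primes and model on `(2X, 8X]` -/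
def Dd (X z n : ℕ) : ℝ := if 2 * X < n ∧ n ≤ 8 * X then th n - lz z n else 0

/-- scale of `a` -/
def xx (κ : ℝ) (X : ℕ) : ℝ := (X : ℝ) ^ (κ / 10)

/-- scale of `b` -/
def yy (κ : ℝ) (X : ℕ) : ℝ := (X : ℝ) ^ (2 * κ / 5) / 10

/-- number of reduced pairs of residues with `d ∣ v + f(a) f(b)` -/
def rho (v d : ℕ) : ℕ :=
  (((range d) ×ˢ (range d)).filter
    (fun w => Nat.Coprime w.1 d ∧ Nat.Coprime w.2 d ∧ d ∣ v + ff w.1 * ff w.2)).card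

/-- the weighted number of pairs with `d ∣ v + f(a) f(b)` -/
def Ad (ω : ℝ → ℝ) (x y : ℝ) (v d : ℕ) : ℝ :=
  ∑ a ∈ II x, ∑ b ∈ II y, if d ∣ v + ff a * ff b then wt ω x a * wt ω y b else 0

/-- the local density -/
def gg (v p : ℕ) : ℝ := (rho v p : ℝ) / ((p : ℝ) - 1) ^ 2

/-! ### circle method -/

/-- BES (Bessel). No hypotheses. About 120 lines.

Proof. `P(α) = Sx D N α · conj (∑_i w_i ex(s_i α)) = ∑_{m ∈ (0,N]} ∑_i D(m) w_i ex((m - s_i)α)` (`ex t = exp(2πit)`,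
`conj (ex t) = ex(-t)`), and `‖P‖^2` is the integrand. Group by the integer `k = m - s_i`:
`P(α) = ∑_{k∈K} c_k ex(kα)`, `K` a finite set of integers, `c_k = ∑_{m - s_i = k} D(m) w_i`. As
`∫_0^1 ex(kα) dα = 0` for integers `k ≠ 0` and `1` for `k = 0`, `∫_0^1 ‖P‖^2 = ∑_{k∈K} c_k^2`. For `1 ≤ v ≤ V`
`c_v = ∑_i w_i D(v + s_i)` (`m = v + s_i ≥ 1`; if `v + s_i > N` then `D(v+s_i) = 0`; if `v ∉ K` the sum is `0`). -/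
def StBes : Prop := ∀ (N V : ℕ) (D : ℕ → ℝ) (I : Finset (ℕ × ℕ)) (w : ℕ × ℕ → ℝ)
  (s : ℕ × ℕ → ℕ), (∀ m, N < m → D m = 0) →
  ∑ v ∈ Icc 1 V, (∑ i ∈ I, w i * D (v + s i)) ^ 2 ≤
    ∫ α in (0 : ℝ)..1, ‖Sx D N α‖ ^ 2 * ‖∑ i ∈ I, (w i : ℂ) * ex ((s i : ℝ) * α)‖ ^ 2

/-- SPL (splitting of the integral). No hypotheses. About 100 lines.

Proof. For `α ∈ [0,1]`: if the first alternative holds, the integrand is at most `(δW)^2 ‖Sx D N α‖^2`. If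
`|α - a/q| ≤ η`, `1 ≤ q ≤ Q`, then `a ≥ -ηq > -1` and `a ≤ q + ηq < q + 1`, so `0 ≤ a ≤ q`, and the integrand is at most
`W^2 ‖Sx D N α‖^2 1_{|α - a/q| ≤ η}`. So everywhere the integrand is at most `(δW)^2 ‖Sx‖^2` plus the sum of these
over all `q`, `a`. Integrate (everything is bounded and measurable, `Sx D N` is continuous):
`∫_0^1 1_{|α - a/q| ≤ η} ‖Sx‖^2 ≤ ∫_{a/q-η}^{a/q+η} ‖Sx‖^2`, and `∫_0^1 ‖Sx D N‖^2 = ∑ D(n)^2` (Parseval). -/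
def StSpl : Prop := ∀ (N Q : ℕ) (D : ℕ → ℝ) (S : ℝ → ℂ) (W δ η : ℝ), Continuous S → 0 ≤ W →
  0 ≤ δ → 0 ≤ η → η * Q < 1 → (∀ α, ‖S α‖ ≤ W) →
  (∀ α, ‖S α‖ ≤ δ * W ∨ ∃ q ∈ Icc 1 Q, ∃ a : ℤ, |α - a / q| ≤ η) →
  ∫ α in (0 : ℝ)..1, ‖Sx D N α‖ ^ 2 * ‖S α‖ ^ 2 ≤ (δ * W) ^ 2 * ∑ n ∈ Ioc 0 N, D n ^ 2 +
    W ^ 2 * ∑ q ∈ Icc 1 Q, ∑ a ∈ range (q + 1),
      ∫ β in (-η)..η, ‖Sx D N ((a : ℝ) / q + β)‖ ^ 2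

/-- GAL (Gallagher's inequality by positivity). No hypotheses. About 120 lines.

Proof. `F(β) = ∑_{j<h} ex(jβ)`. For `|β| ≤ η ≤ 1/(2h)`, `β ≠ 0`: `|F(β)| = |sin(πhβ)|/|sin(πβ)| ≥ 2h|β|/(π|β|) = 2h/π`
(`sin t ≥ 2t/π` on `[0, π/2]`), so `‖F(β)‖^2 ≥ 4h^2/π^2 ≥ h^2/3` (also at `β = 0`). Hence, with
`Ê(β) = ∑ E(n) ex(nβ)`, the left side is at most
`(3/h^2) ∫_{-1/2}^{1/2} ‖Ê F‖^2 = (3/h^2) ∫_0^1 ‖Ê F‖^2` (period 1), and `Ê F = ∑_k ex(kβ) ∑_{n+j=k, j<h} E(n)`; the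
inner sum runs over `n ∈ (0,N]` with `k - h < n ≤ k`, `1 ≤ k ≤ N + h - 1`. Parseval. (`≤` and more `k` on the right.) -/
def StGal : Prop := ∀ (N h : ℕ) (E : ℕ → ℂ) (η : ℝ), 1 ≤ h → 0 ≤ η → 2 * h * η ≤ 1 →
  ∫ β in (-η)..η, ‖∑ n ∈ Ioc 0 N, E n * ex ((n : ℝ) * β)‖ ^ 2 ≤
    3 / (h : ℝ) ^ 2 * ∑ k ∈ Icc 1 (N + h),
      ‖∑ n ∈ (Ioc 0 N).filter (fun n => k < n + h ∧ n ≤ k), E n‖ ^ 2

open Classical in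
/-- APS (hBrun : Pool.Agent.Helper48.BK.StBrun) (hVz : Pool.Agent.Helper48.BK.StVz). The model in short
intervals and residue classes. About 180 lines; adapt `Helper48/BK/M_APZ.lean` (import it: `cnt_APZ`, `tail_APZ`,
`num_APZ`, `tot_APZ`, `sum_inv_APZ`, `card_Pz_APZ` are used as they are).

Proof. If `(u,q) > 1` a prime `p ≤ q ≤ z` divides `u` and `q`, hence every `n ≡ u`, and the sum is `0`. Otherwise the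
primes of `Pz z` dividing `q` are harmless; `P = ` primes of `Pz z` not dividing `q`. For squarefree `d` composed of
primes of `P` the number of `n ∈ (y, y+h]`, `n ≡ u (q)`, `d ∣ n` is `h/(qd) + O(2)` (difference of two
`cnt_APZ`). Bonferroni with `r = ⌈C loglog x⌉` exactly as in `sieve_APZ` (error `2 · 3 z^{r+1} + 2 (h/q) e^{3(1+log z) - r-1}`),
multiply by `1/Vz z ≤ C log z` and use `tot_APZ`. `z^{r+1} ≤ x^{1/10} ≤ h x^{-1/10}` and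
`e^{3(1 + log z) - r - 1} ≤ (log x)^{-A-2}` for `C = 3B + A + 3` and large `x`. (There is no upper bound on `h`, `y`.) -/
def StAps : Prop := ∀ A B : ℕ, ∃ x₀ : ℕ, ∀ x y h z q u : ℕ, x₀ ≤ x →
  (x : ℝ) ^ (1 / 5 : ℝ) ≤ h → 2 ≤ z → (z : ℝ) ≤ Real.log x ^ B → 1 ≤ q → q ≤ z →
  |∑ n ∈ (Ioc y (y + h)).filter (fun n => n ≡ u [MOD q]), lz z n -
    (if Nat.Coprime u q then (h : ℝ) / Nat.totient q else 0)| ≤ h / Real.log x ^ A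

/-- WSM (hWinu : StWinu) (hAps : StAps) (hVz : Pool.Agent.Helper48.BK.StVz). Window sums. About 200 lines.

Proof. `W_k = ∑_{n ∈ (k-h,k], 0 < n ≤ 8X} Dd(n) ex(na/q)`.
(a) `k ≤ 2X`: all `Dd(n) = 0`, `W_k = 0`.
(b) `2X < k < 2X + h` and `8X < k ≤ 8X + h`: at most `2h` values of `k`, and `|W_k| ≤ h · 2L`, because `|Dd n| ≤ log(8X) + 1/Vz z
≤ log (8X) + C log z ≤ 2L` (`StVz`, `log z ≤ B loglog X`). Total `≤ 2h · 4h²L² ≤ X h² / L^{A+1}` since `h ≤ X^{1/2 - ε}`, `ε = 1/2 - κ > 0`.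
(c) `2X + h ≤ k ≤ 8X`: with `N = k - h ∈ [2X, 8X)` the window is `(N, N+h] ⊆ (2X, 8X]` and, grouping by the class of `n`
modulo `q`, `W_k = ∑_{u<q} ex(ua/q) (dsc N h q u - e_u)`, `e_u` = the difference in APS, `|e_u| ≤ h/L^{A'}` (the main terms
`1_{(u,q)=1} h/φ(q)` cancel). So `|W_k|² ≤ 2q ∑_u dsc(N)² + 2q² h² L^{-2A'}`. Sum over `N`: the term `N = 2X` is one
window, bounded as in (b); `N ∈ (2X, 4X]` and `N ∈ (4X, 8X]`: `StWinu` at `2X` and `4X` with exponents `A'`, `B`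
(`q ≤ z ≤ L^B ≤ log^B (2X)`; `h ≤ X^κ ≤ 4 (2X)^κ`; `((4X)^κ)² ≤ 4 X^{2κ} ≤ 16 h²`, `h ≥ X^κ/2`):
`∑ ≤ 2q² · 2 · 4X · 16 h² / L^{A'} + 2 q² · 6X h² L^{-2A'} ≤ X h² / L^{A+1}` for `A' = A + 2B + 3`. -/
def StWsm : Prop := ∀ κ : ℝ, 2 / 5 < κ → κ < 1 / 2 → ∀ A B : ℕ, ∃ X₀ : ℕ, ∀ X z h q a : ℕ,
  X₀ ≤ X → 2 ≤ z → (z : ℝ) ≤ Real.log X ^ B → h = ⌊(X : ℝ) ^ κ⌋₊ → 1 ≤ q → q ≤ z →
  ∑ k ∈ Icc 1 (8 * X + h), ‖∑ n ∈ (Ioc 0 (8 * X)).filter (fun n => k < n + h ∧ n ≤ k),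
      (Dd X z n : ℂ) * ex ((n : ℝ) * ((a : ℝ) / q))‖ ^ 2 ≤
    X * (h : ℝ) ^ 2 / Real.log X ^ A

/-- MAJ (hSpl : StSpl) (hGal : StGal) (hWsm : StWsm) (hVz : Pool.Agent.Helper48.BK.StVz). About 120 lines.

Proof. SPL with `N = 8X`, `D = Dd X z`, `η = 1/(2h)` (`ηQ < 1` since `Q ≤ z ≤ L^B < 2h`). `Sx D N (a/q + β) = ∑ E(n) ex(nβ)` with
`E(n) = Dd(n) ex(na/q)`, GAL: each integral is at most `3/h²` times the sum of WSM, so at most `3X/L^{A'}`, `A' = A + 2B + 3`.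
There are at most `(Q+1)² ≤ 4 L^{2B}` pairs `(q,a)`. Finally `∑ Dd(n)² ≤ 8X (2L)² ≤ X L³` (`|Dd n| ≤ 2L` as in WSM (b)). -/
def StMaj : Prop := ∀ κ : ℝ, 2 / 5 < κ → κ < 1 / 2 → ∀ A B : ℕ, ∃ X₀ : ℕ, ∀ X z Q h : ℕ,
  X₀ ≤ X → 2 ≤ z → (z : ℝ) ≤ Real.log X ^ B → Q ≤ z → h = ⌊(X : ℝ) ^ κ⌋₊ →
  ∀ (S : ℝ → ℂ) (W δ : ℝ), Continuous S → 0 ≤ W → 0 ≤ δ → (∀ α, ‖S α‖ ≤ W) →
  (∀ α, ‖S α‖ ≤ δ * W ∨ ∃ q ∈ Icc 1 Q, ∃ a : ℤ, |α - a / q| ≤ 1 / (2 * h)) →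
  ∫ α in (0 : ℝ)..1, ‖Sx (Dd X z) (8 * X) α‖ ^ 2 * ‖S α‖ ^ 2 ≤
    W ^ 2 * X * (δ ^ 2 * Real.log X ^ 3 + 1 / Real.log X ^ A)

/-! ### minor arcs -/

/-- WEY (hGeo1 : Pool.Agent.Helper48.BK.StGeo1). Weyl differencing. About 90 lines.

Proof. `‖∑_n ex(γ f(n))‖² = ∑_{m,n ≤ M} ex(γ(f(m) - f(n)))`. The diagonal gives `M`. For `m = n + h`, `1 ≤ h < M`:
`f(n+h) - f(n) = 2nh + h² + h`, so the sum over `n ∈ [1, M-h]` has absolute value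
`‖∑_{n ∈ (0, M-h]} ex(n · 2hγ)‖ ≤ gs (M-h) (2hγ) ≤ gs M (2hγ)` (StGeo1); the pairs with `m < n` are the conjugates. -/
def StWey : Prop := ∀ (M : ℕ) (γ : ℝ), ‖∑ n ∈ Icc 1 M, ex (γ * (ff n : ℕ))‖ ^ 2 ≤
  M + 2 * ∑ h ∈ Icc 1 M, gs M (2 * h * γ)

/-- CSH (hGeo1 : Pool.Agent.Helper48.BK.StGeo1) (hGeo2 : Pool.Agent.Helper48.BK.StGeo2) (hDiv : Pool.Agent.Helper48.BK.StDiv).
Counting. About 250 lines.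

Proof. Put `g(t) = gs M t ≥ 0`, `g ≤ M`, so `g² ≤ M g`. `f(u) - f(u') = (u-u')(u+u'+1) = t s`, `1 ≤ t ≤ U`,
`1 ≤ s ≤ 3U`, and `(u,u') ↦ (t,s)` is injective, so the sum is at most `∑_{t ≤ U} ∑_{s ≤ 3U} ∑_{h ≤ M} g(2hts α)`.
`τ(j)` = number of divisors, `Λ₁ = 1 + log(6U²M) ≤ 6 log M`.
(i) Fixed `t`: grouping by `j = sh ≤ 3UM` (at most `τ(j)` pairs), Cauchy-Schwarz and StDiv:
`∑_{s,h} g ≤ ∑_j τ(j) g(2tjα) ≤ (3UM Λ₁³)^{1/2} (M ∑_{j ≤ 3UM} g(2tjα))^{1/2}`.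
(ii) Sum over `t ≤ U`, Cauchy-Schwarz, grouping by `k = 2tj ≤ 6U²M =: K` (at most `τ(k)` pairs `(t,j)`):
`∑_t (…)^{1/2} ≤ U^{1/2} (∑_{k ≤ K} τ(k) g(kα))^{1/2}`.
(iii) `∑_{k≤K} τ(k) g(kα) ≤ (K Λ₁³)^{1/2} (M ∑_{k≤K} g(kα))^{1/2}`.
(iv) StGeo2 (`N = M`): `∑_{k≤K} g(kα) ≤ C (K/q + 1)(M + q(1 + log q)) ≤ C' log M · U²M² Δ`, `Δ = 1/q + 1/M + q/(UM)²`
(`1 + log q ≤ 1 + 2 log(UM) ≤ 5 log M`; `KM/q = 6U²M²/q`, `K = 6U²M²/M`, `M ≤ U²M²/M`, `q = U²M² · q/(UM)²`).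
Together: (iii) `≤ C'' U²M² (log M)² Δ^{1/2}`, and the total is
`≤ (3UM Λ₁³ · M)^{1/2} U^{1/2} (C'' U²M² (log M)² Δ^{1/2})^{1/2} ≤ C''' U²M² (log M)^{5/2} Δ^{1/4}`, and `log M ≥ 1`. -/
def StCsh : Prop := ∃ C : ℝ, 0 < C ∧ ∀ (U M q : ℕ) (b : ℤ) (α : ℝ), 3 ≤ U → U ≤ M →
  q ≤ (U * M) ^ 2 → Apx α b q →
  ∑ u ∈ Icc 1 U, ∑ u' ∈ Ico 1 u, ∑ h ∈ Icc 1 M, gs M (2 * h * (((ff u : ℝ) - ff u') * α)) ≤
    C * (U : ℝ) ^ 2 * (M : ℝ) ^ 2 * Real.log M ^ 3 *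
      (1 / (q : ℝ) + 1 / M + q / ((U : ℝ) * M) ^ 2) ^ (1 / 4 : ℝ)

/-- TYP (hWey : StWey) (hCsh : StCsh). Type two sums. About 150 lines.

Proof. Cauchy-Schwarz over `v`: `‖eS‖² ≤ (∑_v c_v²) ∑_{v≤M} |∑_u a_u ex(f(u)f(v)α)|² ≤ G²M ∑_{u,u'} |a_u a_{u'}| |T(u,u')|`,
`T(u,u') = ∑_{v≤M} ex((f(u)-f(u'))α f(v))`. Diagonal: `U M`. Off the diagonal `|T(u,u')| = |T(u',u)|`, so
`‖eS‖² ≤ G⁴ M (UM + 2 ∑_{u'<u} |T(u,u')|)`. Cauchy-Schwarz, WEY and CSH (`Δ` as there):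
`∑_{u'<u} |T| ≤ U (∑ |T|²)^{1/2} ≤ U (U²M + 2C U²M² (log M)³ Δ^{1/4})^{1/2} ≤ C' U²M (log M)^{3/2} Δ^{1/8}`
(as `1/M ≤ Δ^{1/4}`: `Δ ≥ 1/M`, `1/M ≤ 1`). So `‖eS‖² ≤ G⁴ (UM)² (1/U + 2C' (log M)^{3/2} Δ^{1/8})`, `log M ≥ 1`. -/
def StTyp : Prop := ∃ C : ℝ, 0 < C ∧ ∀ (U M q : ℕ) (b : ℤ) (α G : ℝ) (a c : ℕ → ℝ), 3 ≤ U →
  U ≤ M → q ≤ (U * M) ^ 2 → Apx α b q → (∀ n, |a n| ≤ G) → (∀ n, |c n| ≤ G) →
  ‖eS U M a c α‖ ^ 2 ≤ C * G ^ 4 * ((U : ℝ) * M) ^ 2 * Real.log M ^ 2 *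
    (1 / (U : ℝ) + (1 / (q : ℝ) + 1 / M + q / ((U : ℝ) * M) ^ 2) ^ (1 / 8 : ℝ))

/-- DIC (hTyp : StTyp). Dichotomy. About 90 lines.

Proof. `Q₀ = ⌊(UM)²/Q⌋ ≥ 1`. Dirichlet (Mathlib: `Real.exists_rat_abs_sub_le_and_den_le`): a reduced fraction `b/q`, `1 ≤ q ≤ Q₀`,
`|α - b/q| ≤ 1/((Q₀+1) q)`. If `q ≤ Q`: `|α - b/q| ≤ 1/(Q₀+1) ≤ Q/(UM)² ≤ η`, the second alternative. If `q > Q`:
`Apx α b q` (as `q ≤ Q₀ + 1`), `q ≤ (UM)²`, and TYP applies with `1/q + 1/M + q/(UM)² ≤ 1/Q + 1/Q + 1/Q`, and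
`3^{1/8} ≤ 3`. -/
def StDic : Prop := ∃ C : ℝ, 0 < C ∧ ∀ (U M Q : ℕ) (α G η : ℝ) (a c : ℕ → ℝ), 3 ≤ U → U ≤ M →
  1 ≤ Q → Q ≤ M → (∀ n, |a n| ≤ G) → (∀ n, |c n| ≤ G) → (Q : ℝ) / ((U : ℝ) * M) ^ 2 ≤ η →
  ‖eS U M a c α‖ ^ 2 ≤ C * G ^ 4 * ((U : ℝ) * M) ^ 2 * Real.log M ^ 2 *
    (1 / (U : ℝ) + (1 / (Q : ℝ)) ^ (1 / 8 : ℝ)) ∨
  ∃ q ∈ Icc 1 Q, ∃ b : ℤ, |α - b / q| ≤ η

/-- CIR (hBes : StBes) (hMaj : StMaj) (hDic : StDic). About 250 lines.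

Proof. `κ' = min ((κ + 2/5)/2) (9/20)`, so `2/5 < κ' < 1/2` and `κ' < κ`. `x = xx κ X`, `y = yy κ X`, `U = ⌊3x⌋`, `M = ⌊3y⌋`, `a = wt ω x`, `c = wt ω y`, `h = ⌊X^{κ'}⌋`.
`B = 8(A + 14)`, `Q = ⌊L^B⌋ ≤ z` (`1 ≤ Q ≤ M`).
(1) `wt ω x n ≠ 0` implies `x ≤ n ≤ ex` and `0 ≤ wt ω x n ≤ Λ(n)/2 ≤ log(3x) ≤ L =: G` for all `n` (`x ≥ 1`, `e < 3`). For
`v ∈ (2X, 4X]` and nonzero weights `2X < v + f(a)f(b) ≤ 4X + 9 e⁴ (xy)² ≤ 8X` (`f(a) ≤ 3a²`, `(xy)² = X^κ/100`, `κ < 1`), so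
`rS th v - rS (lz z) v = ∑_{(a,b)} wt wt Dd(v + f(a)f(b))`. BES (`I = II x ×ˢ II y`, `N = 8X`, `V = 4X`): the left side is at
most `∫_0^1 ‖Sx (Dd X z) (8X)‖² ‖S‖²`, `S = eS U M (wt ω x) (wt ω y)` (`II x = Icc 1 ⌊3x⌋`).
(2) MAJ with `κ'`, exponents `A' = A + 6`, `B' = B + 1`: `W = L² U M ≥ ‖S‖`; the dichotomy is DIC with `η = 1/(2h)`: `Q · 2h ≤ 2 L^B X^{κ'} ≤ (UM)²` for
large `X` since `UM ≥ 4xy = (2/5) X^{κ/2}` and `κ' < κ`; `δ² = C L² (1/U + (1/Q)^{1/8})` (so that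
`C G⁴ (UM)² (log M)² (…) ≤ (δW)²`; `log M ≤ L`), and `(1/Q)^{1/8} ≤ 2 L^{-A-14}`, `1/U ≤ 1/x = X^{-κ/10} ≤ L^{-A-14}`. So
`∫ ≤ L⁴ (UM)² X (3C L^{5 - A - 14} + L^{-A-6}) ≤ X (xy)² L^{-A}`, as `UM ≤ 9xy`. -/
def StCir : Prop := ∀ ω : ℝ → ℝ, IsB ω → ∀ κ : ℝ, 2 / 5 < κ → κ < 1 → ∀ A : ℕ, ∃ B X₀ : ℕ,
  ∀ X z : ℕ, X₀ ≤ X → Real.log X ^ B ≤ z → (z : ℝ) ≤ Real.log X ^ (B + 1) →
  ∑ v ∈ Ioc (2 * X) (4 * X), (rS ω (xx κ X) (yy κ X) th v -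
    rS ω (xx κ X) (yy κ X) (lz z) v) ^ 2 ≤ X * (xx κ X * yy κ X) ^ 2 / Real.log X ^ A

/-! ### lower bound for the model -/

/-- RHO (local densities). No hypotheses. About 200 lines.

Proof. (i) Chinese remainder: `(a, b) ↦ (a mod d, b mod d, a mod e, b mod e)` is a bijection from `range(de)²` to
`range(d)² × range(e)²` which respects the three conditions (`ff` is a polynomial; coprimality and divisibility by `de` split).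
(ii) `d = 1` one pair `(0,0)`. (iii) `p = 2`: `a = b = 1`, `v + 9` is odd. (iv) `p = 3`: `a, b ∈ {1,2}`, `f(1) ≡ 0`, `f(2) ≡ 1`, so the
four pairs give `v, v, v, v+1 (mod 3)`, not all `0`. (v) `p ≥ 5` prime. If `p ∤ v`: a pair with `f(a) ≡ 0` is not counted; if
`f(a) ≢ 0` then `f(a)(b² + b + 1) + v ≡ 0` is a quadratic equation for `b` in the field `ZMod p` with nonzero leading
coefficient, at most two roots: `rho ≤ 2(p-1) ≤ 4p - 8 = (p-1)² - (p-3)²`. If `p ∣ v`: the condition is `f(a) ≡ 0` or `f(b) ≡ 0`, and `f` has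
`r ≤ 2` roots: `(p-1)² - (p-1-r)² ≤ (p-1)² - (p-3)²`. -/
def StRho : Prop :=
  (∀ v d e : ℕ, 1 ≤ d → 1 ≤ e → Nat.Coprime d e → rho v (d * e) = rho v d * rho v e) ∧
  (∀ v : ℕ, rho v 1 = 1) ∧ (∀ v : ℕ, Even v → rho v 2 = 0) ∧ (∀ v : ℕ, rho v 3 ≤ 3) ∧
  ∀ v p : ℕ, p.Prime → 5 ≤ p → (rho v p : ℝ) ≤ ((p : ℝ) - 1) ^ 2 - ((p : ℝ) - 3) ^ 2

/-- DIS (distribution). No hypotheses. About 200 lines.

Proof. For `0 ≤ a₀ < d` let `W(a₀) = ∑_{a ∈ II x, a ≡ a₀ (d)} wt ω x a`, `W'(b₀)` the same for `y`. All weights are `≥ 0`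
(`Λ ≥ 0`, `ω ≥ 0`). `Ad = ∑_{a₀,b₀ < d, d ∣ v + f(a₀)f(b₀)} W(a₀) W'(b₀)`.
Reduced pairs (`rho v d` of them): `|W W' - Th Th'/φ²| ≤ |W - Th/φ| Th'/φ + W |W' - Th'/φ| ≤ e1 Th'/φ + W e2`
(`Err ω x d a₀ = |W(a₀) - Th ω x/φ(d)|`), and `W(a₀) ≤ (3x/d + 1) log(3x)/2 ≤ 2x log(3x)/d` as `d ≤ x` (`Λ(n) ≤ log n`, `ω ≤ 1/2`). Summing over
at most `K φ(d)` pairs: `≤ K (e1 Th' + 2 x log(3x) e2)`.
Other pairs: if `(a, d) > 1` and `Λ(a) ≠ 0` then `a = p^j`, `p ∣ d`, `j ≥ 1`, and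
`∑_{a ∈ II x, (a,d)>1} wt ω x a ≤ ∑_{p∣d} ∑_{j : p^j ≤ 3x} log p ≤ ω(d) log(3x)`. So these pairs contribute at most
`ω(d) (log(3x) Th' + log(3y) Th)`. -/
def StDis : Prop := ∀ (ω : ℝ → ℝ) (x y e1 e2 K : ℝ) (v d : ℕ), IsB ω → 1 ≤ x → x ≤ y →
  1 ≤ d → (d : ℝ) ≤ x → 0 ≤ K → (∀ b : ℤ, IsCoprime b (d : ℤ) → Err ω x d b ≤ e1) →
  (∀ b : ℤ, IsCoprime b (d : ℤ) → Err ω y d b ≤ e2) → (rho v d : ℝ) ≤ K * Nat.totient d →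
  |Ad ω x y v d - (rho v d : ℝ) / (Nat.totient d : ℝ) ^ 2 * (Th ω x * Th ω y)| ≤
    K * (e1 * Th ω y + 4 * x * Real.log (3 * x) * e2) +
      d.primeFactors.card * (Real.log (3 * x) * Th ω y + Real.log (3 * y) * Th ω x)

/-- BON (hBrun : Pool.Agent.Helper48.BK.StBrun). Bonferroni. About 120 lines (compare `sieve_APZ` in
`Helper48/BK/M_APZ.lean`).

Proof. `Vz z · rS ω x y (lz z) v = ∑_{a,b} wt wt 1[∀ p ∈ Pz z, p ∤ v + f(a)f(b)]` (`Vz z ≠ 0`: `Vz_pos_APZ`). StBrun gives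
`1[…] ≥ ∑_{|T| ≤ r, T ∣ m} (-1)^{|T|} - #{T : |T| = r+1, T ∣ m}`; for sets of primes `T ∣ m` means `∏T ∣ m`
(`dvd_prod_APZ`). Multiply by the weights (`≥ 0`) and sum: `≥ ∑_{|T|≤r} (-1)^{|T|} Ad(∏T) - ∑_{|T|=r+1} Ad(∏T)`, which by hypothesis
is at least `Th Th' (∑_{|T|≤r} (-1)^{|T|} g(T) - ∑_{|T|=r+1} g(T)) - ∑_{|T|≤r+1} E`, `g(T) = ∏_{p∈T} gg v p ≥ 0`, and
`∑_{|T| ≤ r} (-1)^{|T|} g(T) = ∏ (1 - gg v p) - ∑_{|T| ≥ r+1} (-1)^{|T|} g(T)`. (`Th ≥ 0`.) -/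
def StBon : Prop := ∀ (ω : ℝ → ℝ) (x y : ℝ) (v r z : ℕ) (E : ℕ → ℝ), IsB ω →
  (∀ T ∈ (Pz z).powerset, T.card ≤ r + 1 → |Ad ω x y v (∏ p ∈ T, p) -
    (∏ p ∈ T, gg v p) * (Th ω x * Th ω y)| ≤ E (∏ p ∈ T, p)) →
  Th ω x * Th ω y * (∏ p ∈ Pz z, (1 - gg v p) -
      2 * ∑ T ∈ (Pz z).powerset.filter (fun T => r + 1 ≤ T.card), ∏ p ∈ T, gg v p) -
    ∑ T ∈ (Pz z).powerset.filter (fun T => T.card ≤ r + 1), E (∏ p ∈ T, p) ≤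
  Vz z * rS ω x y (lz z) v

/-- PRD (hRho : StRho) (hVz : Pool.Agent.Helper48.BK.StVz). Products of local densities. About 130 lines.

Proof. By RHO: `gg v 2 = 0`, `gg v 3 ≤ 3/4`, and for primes `p ≥ 5` `0 ≤ gg v p ≤ 1 - ((p-3)/(p-1))²`, so
`1 - gg v p ≥ ((p-3)/(p-1))² ≥ (1 - 1/p)^8`, because `(1 - 3t) ≥ (1-t)^5` for `0 ≤ t ≤ 1/5` (`(1-t)^5 ≤ 1 - 5t + 10t²`), `t = 1/p`. So the product is at
least `(1/4) ∏_{5 ≤ p ≤ z} (1-1/p)^8 ≥ (1/4) (Vz z)^8 ≥ (1/4)(c/log z)^8`. Second part: `gg v p ≤ 8/p` for all primes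
(`p ≥ 5`: `gg ≤ (4p-8)/(p-1)² ≤ 8/p`). Rankin as in `tail_APZ` (`Helper48/BK/M_APZ.lean`):
`∑_{|T| ≥ R} ∏ gg ≤ e^{-R} ∏ (1 + e gg v p) ≤ e^{-R} exp(3 ∑ 8/p) ≤ exp(24 (1 + log z) - R)` (`sum_inv_APZ`). -/
def StPrd : Prop := ∃ c : ℝ, 0 < c ∧ (∀ v z : ℕ, Even v → 2 ≤ z →
    c / Real.log z ^ 8 ≤ ∏ p ∈ Pz z, (1 - gg v p)) ∧
  ∀ v z R : ℕ, Even v → 2 ≤ z →
    ∑ T ∈ (Pz z).powerset.filter (fun T => R ≤ T.card), ∏ p ∈ T, gg v p ≤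
      Real.exp (24 * (1 + Real.log z) - R)

/-- EER (hBVc : Pool.Agent.Helper60.GP.StBVc). Sum of the maximal errors. About 80 lines.

Proof. For every `d ≥ 1` the function `b ↦ Err ω x d b` depends only on `b` modulo `d` (the condition is `d ∣ n - b`), so it has
a maximum over the `b` coprime to `d`, attained at some `b(d)` (the set of residues is finite and contains `1`). Put
`e(d) = Err ω x d (b(d))`, and apply StBVc with `θ = 1/4` and this choice of `b`. -/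
def StEer : Prop := ∀ ω : ℝ → ℝ, IsB ω → ∀ A : ℕ, ∃ x₀ : ℝ, ∀ x : ℝ, x₀ ≤ x →
  ∃ e : ℕ → ℝ, (∀ d, 0 ≤ e d) ∧
    (∀ d : ℕ, 1 ≤ d → ∀ b : ℤ, IsCoprime b (d : ℤ) → Err ω x d b ≤ e d) ∧
    ∑ d ∈ Icc 1 ⌊x ^ (1 / 4 : ℝ)⌋₊, e d ≤ x / Real.log x ^ A

/-- LOW (hRho : StRho) (hDis : StDis) (hBon : StBon) (hPrd : StPrd) (hEer : StEer)
(hPNT : Pool.Agent.Helper60.GP.StPNT). The model is large for every even `v`. About 300 lines.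

Proof. `ℓ = loglog X`, `log z ≤ Bℓ`. `r = ⌈(24B + 26) ℓ⌉`. `D = z^{r+1} ≤ exp(Bℓ(r+1)) ≤ x^{1/8}` for large `X`
(`log x = κL/10`, `ℓ² = o(L)`), also `x ≤ y`, `x^{1/4} ≤ y^{1/4}`. For `T ⊆ Pz z`, `|T| ≤ r+1`, `d = ∏T ≤ D`: `rho v d = ∏ rho v p`, `φ(d) = ∏ (p-1)`, so
`rho v d/φ(d)² = ∏ gg v p` and `rho v d ≤ ∏ 4(p-1) ≤ 4^{r+1} φ(d)` (RHO; `4p - 8 ≤ 4(p-1)`, `3 ≤ 8`). DIS with `K = 4^{r+1}`, `e1 = e(d)` from EER for `x`,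
`e2 = e'(d)` from EER for `y` (exponent `A' = 80B + 100`): the hypothesis of BON holds with
`E(d) = 4^{r+1}(e(d) Th' + 4x log(3x) e'(d)) + (r+1)(log(3x) Th' + log(3y) Th)` (`ω(d) = |T|`). `T ↦ ∏T` is injective on sets of
primes, and the number of `T` is at most `3 z^{r+1}` (`num_APZ` in `Helper48/BK/M_APZ.lean`), so by PNT (`Th ω x ≤ C x`, `Th ω y ≤ C y`)
`∑ E ≤ 4^{r+1}(C y x/log^{A'} x + 4x log(3x) y/log^{A'} y) + 3 x^{1/8} (r+1) · 2 C L y ≤ xy/L²` for large `X`, as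
`4^{r+1} ≤ exp(1.4 (r+1)) ≤ L^{34B + 40}`, `log x ≥ κL/20`. PRD: `2 exp(24(1 + log z) - r - 1) ≤ 2 e^{24} L^{-26} `
`≤ (c/2)/(log z)^8`, since `(log z)^8 ≤ (Bℓ)^8`. PNT: `Th ω x ≥ JJ x/2`, `Th ω y ≥ JJ y/2`. BON:
`Vz z · rS ≥ (JJ²/4) xy (c/2)/(Bℓ)^8 - xy/L² ≥ xy/L` for large `X`, and `0 < Vz z ≤ 1`. -/
def StLow : Prop := ∀ ω : ℝ → ℝ, IsB ω → 0 < JJ ω → ∀ κ : ℝ, 0 < κ → κ < 1 → ∀ B : ℕ,
  ∃ X₀ : ℕ, ∀ X z v : ℕ, X₀ ≤ X → 2 ≤ z → (z : ℝ) ≤ Real.log X ^ B → Even v →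
  xx κ X * yy κ X / Real.log X ≤ rS ω (xx κ X) (yy κ X) (lz z) v

/-! ### conclusion -/

/-- NUM (from the weighted sum to the number of `k`). No hypotheses. About 250 lines.

Proof. A term of `rS th v` is nonzero only if `a`, `b` are prime powers, `x ≤ a ≤ ex`, `y ≤ b ≤ ey` and `m = v + f(a)f(b)` is prime, and then
it is at most `(log(3x)/2)(log(3y)/2) log(9X) ≤ L³` (`m ≤ 4X + 9 e⁴ X^κ/100 ≤ 9X`).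
(i) `a`, `b` prime: `a < b` (`ex < y` for large `X`), `k = (ab)²` has `σ(k) = σ(a²)σ(b²) = f(a)f(b)` (`sigma` is multiplicative),
`0 < k ≤ (e² xy)² = e⁴ X^κ/100 < X^κ`, so `k` is counted, and `k` determines `{a,b}` and, as `a < b`, the pair. Contribution
`≤ L³ · #`.
(ii) `a` a proper prime power (`a = p^j`, `j ≥ 2`): `∑ wt ω x a ≤ ∑_{a ≤ 3x proper} Λ(a) ≤ √(3x) · log(3x)²` (at most `√(3x) log_2(3x)`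
of them; or from `StTh` of `Helper48/BK`), all `b`: `∑ wt ω y b ≤ 3y log(3y)`, `th m ≤ log(9X)`: total `≤ C √x y L⁴ ≤ xy/(2L²)`.
(iii) `b` a proper prime power: the same with `x`, `y` exchanged. -/
def StNum : Prop := ∀ ω : ℝ → ℝ, IsB ω → ∀ κ : ℝ, 0 < κ → κ < 1 → ∃ X₀ : ℕ, ∀ X v : ℕ,
  X₀ ≤ X → v ≤ 4 * X → rS ω (xx κ X) (yy κ X) th v ≤
    Real.log X ^ 3 * (({k : ℕ | 0 < k ∧ (k : ℝ) < (X : ℝ) ^ κ ∧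
      (v + sigma 1 k).Prime}.ncard : ℕ) : ℝ) + xx κ X * yy κ X / Real.log X ^ 2

open Classical in
/-- FN1 (hCir : StCir) (hLow : StLow) (hNum : StNum) (hBump : Pool.Agent.Helper60.GP.StBump). About 120 lines.

Proof. `ω` from StBump (with parameter `1`, so `IsB ω`, `0 < JJ ω`). `B`, `X₀` from CIR with exponent `A + 4`; `z = ⌈L^B⌉ ≤ L^{B+1}`, `z ≥ 2`. Let `n ∈ (X, 2X]` be
counted on the left, `v = 2n ∈ (2X, 4X]`. NUM: `rS th v ≤ L³ X^{κ/2}/L^5 + xy/L² = 11 xy/L² ≤ xy/(2L)` (`xy = X^{κ/2}/10`), LOW: `rS (lz z) v ≥ xy/L`, so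
`(rS th v - rS (lz z) v)² ≥ (xy)²/(4L²)`. By CIR the number of such `n` is at most `4L² X/L^{A+4} ≤ X/L^A`. -/
def StFn1 : Prop := ∀ κ : ℝ, 2 / 5 < κ → κ < 1 → ∀ A : ℕ, ∃ X₀ : ℕ, ∀ X : ℕ, X₀ ≤ X →
  (((Ioc X (2 * X)).filter (fun n => (({k : ℕ | 0 < k ∧ (k : ℝ) < (X : ℝ) ^ κ ∧
      (2 * n + sigma 1 k).Prime}.ncard : ℕ) : ℝ) <
        (X : ℝ) ^ (κ / 2) / Real.log X ^ 5)).card : ℝ) ≤ X / Real.log X ^ A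

/-- FIN (hFn1 : StFn1). All scales. About 200 lines (compare `Helper36/SU/M_FU3.lean`).

Proof. Let `S` be the set on the left and `X₁` large. If `n > 2X₁` is in `S` and `n ∈ (Y, 2Y]`, `Y ≥ X₁`, then `n` is in the set of FN1 for `Y`: the
numbers `0 < k < Y^κ` are `< n^κ`, so there are fewer than `n^{κ/2}/(log n)^6 ≤ √2 Y^{κ/2}/(log Y)^6 ≤ Y^{κ/2}/(log Y)^5` of them. The intervals `(Y, 2Y]` with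
`Y = ⌊X/2^j⌋ + 1`-type dyadic points cover `(2X₁, X]`; simplest: by strong induction on `X`, `(0, X] ⊆ (0, Y] ∪ (Y, 2Y]`, `Y = ⌈X/2⌉`,
and `#S(X) ≤ #S(Y) + Y/(log Y)^A ≤ C Y/(log Y)^A + Y/(log Y)^A ≤ C X/(log X)^A` when `C` is large and
`(Y/X)(1 + 1/C)(log X/log Y)^A ≤ 1` (true for large `X`, because `Y/X → 1/2`). Small `X` go into `C` (`X/(log X)^A` is bounded below by a
positive constant on `X ≥ 2`). -/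
def StFin : Prop := ∀ (κ : ℝ) (A : ℕ), 2 / 5 < κ → κ < 1 → ∃ C : ℝ, ∀ X : ℕ, 2 ≤ X →
  ({n : ℕ | 1 ≤ n ∧ n ≤ X ∧ (({k : ℕ | 0 < k ∧ (k : ℝ) < (n : ℝ) ^ κ ∧
      (2 * n + sigma 1 k).Prime}.ncard : ℕ) : ℝ) < (n : ℝ) ^ (κ / 2) / Real.log n ^ 6}.ncard : ℝ) ≤
    C * X / Real.log X ^ A

end Pool.Agent.Helper9.SK
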