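import Pool.Agent.Helper9.SK.St

/-!
# Project SK, module SPL: splitting of the integral over wide major arcs
-/

set_option autoImplicit false

noncomputable section

namespace Pool.Agent.Helper9.SK

open Finset ArithmeticFunction MeasureTheory
open Pool.Agent.Helper48.BK (ex th Pz Vz lz gs Sx Apx)

private lemma exadd (s t : ℝ) : ex (s + t) = ex s * ex t := by
  unfold ex
  rw [← Complex.exp_add]
  congr 1
  push_cast
  ring

private lemma exconj (t : ℝ) : (starRingEnd ℂ) (ex t) = ex (-t) := by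
  unfold ex
  rw [← Complex.exp_conj]
  congr 1
  simp only [map_mul, Complex.conj_ofReal, Complex.conj_I, map_ofNat]
  push_cast
  ring

private lemma expow (t : ℝ) (n : ℕ) : ex t ^ n = ex (n * t) := by
  unfold ex
  rw [← Complex.exp_nat_mul]
  congr 1
  push_cast
  ring

private lemma exint (m : ℤ) : ex (m : ℝ) = 1 := by
  unfold ex
  rw [Complex.exp_eq_one_iff]
  exact ⟨m, by push_cast; ring⟩

private lemma excont : Continuous ex := by
  unfold ex
  fun_prop

private lemma exorth (m : ℤ) : ∫ β in (0 : ℝ)..1, ex ((m : ℝ) * β) = if m = 0 then 1 else 0 := by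
  split_ifs with h
  · subst h
    simp [ex]
  · have hc : (2 * Real.pi * Complex.I * m : ℂ) ≠ 0 :=
      mul_ne_zero Complex.two_pi_I_ne_zero (by exact_mod_cast h)
    have h1 : ∀ β : ℝ, ex ((m : ℝ) * β) = Complex.exp (2 * Real.pi * Complex.I * m * β) := by
      intro β
      unfold ex
      congr 1
      push_cast
      ring
    simp_rw [h1]
    rw [integral_exp_mul_complex hc]
    have h2 : Complex.exp (2 * Real.pi * Complex.I * m * ((1 : ℝ) : ℂ)) = 1 := by
      have := exint m
      unfold ex at this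
      rw [← this]
      congr 1
      push_cast
      ring
    rw [h2]
    simp

private lemma pars (s : Finset ℕ) (c : ℕ → ℂ) :
    ∫ β in (0 : ℝ)..1, ‖∑ k ∈ s, c k * ex ((k : ℝ) * β)‖ ^ 2 = ∑ k ∈ s, ‖c k‖ ^ 2 := by
  have h0 : ∀ β : ℝ, ((‖∑ k ∈ s, c k * ex ((k : ℝ) * β)‖ ^ 2 : ℝ) : ℂ) =
      ∑ k ∈ s, ∑ l ∈ s, c k * (starRingEnd ℂ) (c l) * ex ((((k : ℤ) - (l : ℤ) : ℤ) : ℝ) * β) := by
    intro β
    rw [Complex.ofReal_pow, ← Complex.mul_conj', map_sum, sum_mul_sum]
    refine sum_congr rfl fun k _ => sum_congr rfl fun l _ => ?_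
    rw [map_mul, exconj]
    have : ex ((((k : ℤ) - (l : ℤ) : ℤ) : ℝ) * β) = ex ((k : ℝ) * β) * ex (-((l : ℝ) * β)) := by
      rw [← exadd]
      congr 1
      push_cast
      ring
    rw [this]
    ring
  have hint : ∀ k l : ℕ, IntervalIntegrable
      (fun β : ℝ => c k * (starRingEnd ℂ) (c l) * ex ((((k : ℤ) - (l : ℤ) : ℤ) : ℝ) * β))
      volume 0 1 := by
    intro k l
    apply Continuous.intervalIntegrable
    exact continuous_const.mul (excont.comp (continuous_const.mul continuous_id))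
  have h1 : ((∫ β in (0 : ℝ)..1, ‖∑ k ∈ s, c k * ex ((k : ℝ) * β)‖ ^ 2 : ℝ) : ℂ) =
      ((∑ k ∈ s, ‖c k‖ ^ 2 : ℝ) : ℂ) := by
    rw [← intervalIntegral.integral_ofReal]
    simp_rw [h0]
    have hint2 : ∀ k ∈ s, IntervalIntegrable (fun β : ℝ => ∑ l ∈ s, c k * (starRingEnd ℂ) (c l) *
        ex ((((k : ℤ) - (l : ℤ) : ℤ) : ℝ) * β)) volume 0 1 := by
      intro k _
      apply Continuous.intervalIntegrable
      refine continuous_finsetSum _ fun l _ => ?_
      exact continuous_const.mul (excont.comp (continuous_const.mul continuous_id))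
    rw [intervalIntegral.integral_finsetSum hint2, Complex.ofReal_sum]
    refine sum_congr rfl fun k hk => ?_
    rw [Complex.ofReal_pow]
    rw [intervalIntegral.integral_finsetSum (fun l _ => hint k l)]
    have h2 : ∀ l ∈ s, (∫ β in (0 : ℝ)..1, c k * (starRingEnd ℂ) (c l) *
        ex ((((k : ℤ) - (l : ℤ) : ℤ) : ℝ) * β)) =
        if k = l then c k * (starRingEnd ℂ) (c l) else 0 := by
      intro l _
      rw [intervalIntegral.integral_const_mul, exorth]
      by_cases hkl : k = l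
      · subst hkl
        simp
      · have : ((k : ℤ) - (l : ℤ)) ≠ 0 := by omega
        simp [this, hkl]
    rw [sum_congr rfl h2, sum_ite_eq s k]
    simp only [hk, if_true]
    rw [Complex.mul_conj']
  exact_mod_cast h1

theorem hSPL : StSpl := by
  intro N Q D S W δ η hSc hW hδ hη hηQ hSW hd
  have hSx : Continuous (fun α : ℝ => Sx D N α) := by
    unfold Sx
    refine continuous_finsetSum _ fun n _ => ?_
    exact continuous_const.mul (excont.comp (continuous_const.mul continuous_id))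
  obtain ⟨g, hg⟩ : ∃ g : ℝ → ℝ, g = fun α => ‖Sx D N α‖ ^ 2 := ⟨_, rfl⟩
  have hgα : ∀ α, ‖Sx D N α‖ ^ 2 = g α := fun α => by rw [hg]
  have hgc : Continuous g := by rw [hg]; exact hSx.norm.pow 2
  have hg0 : ∀ α, 0 ≤ g α := fun α => by rw [← hgα]; exact sq_nonneg _
  have hpar : ∫ α in (0 : ℝ)..1, g α = ∑ n ∈ Ioc 0 N, D n ^ 2 := by
    have := pars (Ioc 0 N) (fun n => (D n : ℂ))
    simp only [Complex.norm_real, Real.norm_eq_abs, sq_abs] at this
    rw [hg]
    exact this
  obtain ⟨I, hI⟩ : ∃ I : ℕ → ℕ → Set ℝ,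
    I = fun q a : ℕ => Set.Icc ((a : ℝ) / q - η) ((a : ℝ) / q + η) := ⟨_, rfl⟩
  have hIm : ∀ q a, MeasurableSet (I q a) := fun q a => by rw [hI]; exact measurableSet_Icc
  have hi0 : ∀ q a α, 0 ≤ (I q a).indicator g α := fun q a α =>
    Set.indicator_nonneg (fun x _ => hg0 x) α
  have hs0 : ∀ α, 0 ≤ ∑ q ∈ Icc 1 Q, ∑ a ∈ range (q + 1), (I q a).indicator g α := fun α =>
    sum_nonneg fun q _ => sum_nonneg fun a _ => hi0 q a α
  have hpt : ∀ α ∈ Set.Ioc (0 : ℝ) 1, g α * ‖S α‖ ^ 2 ≤ (δ * W) ^ 2 * g α +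
      W ^ 2 * ∑ q ∈ Icc 1 Q, ∑ a ∈ range (q + 1), (I q a).indicator g α := by
    intro α hα
    rcases hd α with h1 | ⟨q, hq, a, ha⟩
    · have h2 : ‖S α‖ ^ 2 ≤ (δ * W) ^ 2 := pow_le_pow_left₀ (norm_nonneg _) h1 2
      have h3 : g α * ‖S α‖ ^ 2 ≤ (δ * W) ^ 2 * g α := by
        rw [mul_comm ((δ * W) ^ 2)]
        exact mul_le_mul_of_nonneg_left h2 (hg0 α)
      have h4 := mul_nonneg (sq_nonneg W) (hs0 α)
      linarith
    · obtain ⟨hq1, hqQ⟩ := mem_Icc.mp hq
      have hq0 : (0 : ℝ) < q := by exact_mod_cast hq1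
      have hηq : η * q < 1 :=
        lt_of_le_of_lt (mul_le_mul_of_nonneg_left (by exact_mod_cast hqQ) hη) hηQ
      obtain ⟨ha1, ha2⟩ := abs_le.mp ha
      have hm : (a : ℝ) / q * q = a := div_mul_cancel₀ _ hq0.ne'
      have hα0 := hα.1
      have hα1 := hα.2
      have b1 : (-1 : ℝ) < a := by
        have : -η ≤ (a : ℝ) / q := by linarith
        have := mul_le_mul_of_nonneg_right this hq0.le
        rw [hm] at this
        linarith
      have b2 : (a : ℝ) < q + 1 := by
        have : (a : ℝ) / q ≤ 1 + η := by linarith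
        have := mul_le_mul_of_nonneg_right this hq0.le
        rw [hm] at this
        linarith
      have c1 : 0 ≤ a := by
        have : (-1 : ℤ) < a := by exact_mod_cast b1
        omega
      obtain ⟨m, rfl⟩ := Int.eq_ofNat_of_zero_le c1
      have c2 : m ∈ range (q + 1) := by
        have : ((m : ℤ) : ℝ) < ((q + 1 : ℕ) : ℝ) := by push_cast; push_cast at b2; exact b2
        rw [mem_range]
        exact_mod_cast this
      rw [Int.cast_natCast] at ha1 ha2
      have hmem : α ∈ I q m := by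
        rw [hI]
        exact ⟨by linarith, by linarith⟩
      have h5 : (I q m).indicator g α = g α := Set.indicator_of_mem hmem g
      have h6 : g α ≤ ∑ q ∈ Icc 1 Q, ∑ a ∈ range (q + 1), (I q a).indicator g α := by
        rw [← h5]
        refine le_trans ?_ (single_le_sum
          (f := fun q => ∑ a ∈ range (q + 1), (I q a).indicator g α)
          (fun q _ => sum_nonneg fun a _ => hi0 q a α) hq)
        exact single_le_sum (f := fun a => (I q a).indicator g α) (fun a _ => hi0 q a α) c2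
      have h7 : ‖S α‖ ^ 2 ≤ W ^ 2 := pow_le_pow_left₀ (norm_nonneg _) (hSW α) 2
      have h8 : g α * ‖S α‖ ^ 2 ≤ W ^ 2 * g α := by
        rw [mul_comm (W ^ 2)]
        exact mul_le_mul_of_nonneg_left h7 (hg0 α)
      have h9 := mul_le_mul_of_nonneg_left h6 (sq_nonneg W)
      have h10 := mul_nonneg (sq_nonneg (δ * W)) (hg0 α)
      linarith
  have hint : IntegrableOn g (Set.Ioc 0 1) := hgc.integrableOn_Ioc
  have hind : ∀ q a, IntegrableOn ((I q a).indicator g) (Set.Ioc 0 1) := fun q a =>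
    hint.indicator (hIm q a)
  have hsum : IntegrableOn
      (fun α => ∑ q ∈ Icc 1 Q, ∑ a ∈ range (q + 1), (I q a).indicator g α) (Set.Ioc 0 1) :=
    integrable_finsetSum _ fun q _ => integrable_finsetSum _ fun a _ => hind q a
  have hR : IntegrableOn (fun α => (δ * W) ^ 2 * g α +
      W ^ 2 * ∑ q ∈ Icc 1 Q, ∑ a ∈ range (q + 1), (I q a).indicator g α) (Set.Ioc 0 1) :=
    (hint.const_mul ((δ * W) ^ 2)).add (hsum.const_mul (W ^ 2))
  have hFc : IntegrableOn (fun α => g α * ‖S α‖ ^ 2) (Set.Ioc 0 1) :=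
    (hgc.mul (hSc.norm.pow 2)).integrableOn_Ioc
  have hone : ∀ q a : ℕ, ∫ α in Set.Ioc (0 : ℝ) 1, (I q a).indicator g α ≤
      ∫ β in (-η)..η, g ((a : ℝ) / q + β) := by
    intro q a
    rw [setIntegral_indicator (hIm q a),
      intervalIntegral.integral_comp_add_left (fun x => g x) ((a : ℝ) / q),
      intervalIntegral.integral_of_le (by linarith), ← integral_Icc_eq_integral_Ioc]
    refine setIntegral_mono_set hgc.integrableOn_Icc (ae_of_all _ hg0) ?_
    refine Filter.Eventually.of_forall ?_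
    intro x hx
    have := hx.2
    rw [hI] at this
    refine ⟨?_, ?_⟩
    · have := this.1
      linarith
    · exact this.2
  simp only [hgα]
  calc ∫ α in (0 : ℝ)..1, g α * ‖S α‖ ^ 2
      = ∫ α in Set.Ioc (0 : ℝ) 1, g α * ‖S α‖ ^ 2 :=
        intervalIntegral.integral_of_le zero_le_one
    _ ≤ ∫ α in Set.Ioc (0 : ℝ) 1, ((δ * W) ^ 2 * g α +
          W ^ 2 * ∑ q ∈ Icc 1 Q, ∑ a ∈ range (q + 1), (I q a).indicator g α) :=
        setIntegral_mono_on hFc hR measurableSet_Ioc hpt
    _ = (δ * W) ^ 2 * (∫ α in Set.Ioc (0 : ℝ) 1, g α) +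
          W ^ 2 * ∑ q ∈ Icc 1 Q, ∑ a ∈ range (q + 1),
            ∫ α in Set.Ioc (0 : ℝ) 1, (I q a).indicator g α := by
        rw [integral_add (hint.const_mul _) (hsum.const_mul _), integral_const_mul,
          integral_const_mul, integral_finsetSum _ (fun q _ =>
            integrable_finsetSum _ fun a _ => hind q a)]
        congr 2
        refine sum_congr rfl fun q _ => ?_
        rw [integral_finsetSum _ (fun a _ => hind q a)]
    _ ≤ (δ * W) ^ 2 * ∑ n ∈ Ioc 0 N, D n ^ 2 + W ^ 2 * ∑ q ∈ Icc 1 Q, ∑ a ∈ range (q + 1),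
          ∫ β in (-η)..η, g ((a : ℝ) / q + β) := by
        rw [← hpar, intervalIntegral.integral_of_le zero_le_one]
        have : ∑ q ∈ Icc 1 Q, ∑ a ∈ range (q + 1),
            ∫ α in Set.Ioc (0 : ℝ) 1, (I q a).indicator g α ≤
            ∑ q ∈ Icc 1 Q, ∑ a ∈ range (q + 1), ∫ β in (-η)..η, g ((a : ℝ) / q + β) :=
          sum_le_sum fun q _ => sum_le_sum fun a _ => hone q a
        have := mul_le_mul_of_nonneg_left this (sq_nonneg W)
        linarith

end Pool.Agent.Helper9.SK
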