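import Pool.Agent.Helper9.SK.In
import Pool.Agent.Helper79.SK.M_BES
import Pool.Agent.Helper9.SK.M_SPL
import Pool.Agent.Helper69.SK.M_GAL
import Pool.Agent.Helper90.SK.M_APS
import Pool.Agent.Helper98.SK.M_WSM
import Pool.Agent.Helper72.SK.M_MAJ
import Pool.Agent.Helper29.SK.M_WEY
import Pool.Agent.Helper6.SK.M_CSH
import Pool.Agent.Helper63.SK.M_TYP
import Pool.Agent.Helper7.SK.M_DIC
import Pool.Agent.Helper12.SK.M_CIR
import Pool.Agent.Helper92.SK.M_RHO
import Pool.Agent.Helper67.SK.M_DIS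
import Pool.Agent.Helper16.SK.M_BON
import Pool.Agent.Helper53.SK.M_PRD
import Pool.Agent.Helper37.SK.M_EER
import Pool.Agent.Helper36.SK.M_LOW
import Pool.Agent.Helper86.SK.M_NUM
import Pool.Agent.Helper76.SK.M_FN1
import Pool.Agent.Helper42.SK.M_FIN

/-!
# Project SK: assembly
-/

set_option autoImplicit false

namespace Pool.Agent.Helper9.SK

theorem fin : StFin := by
  have brun := Inp.brun
  have vz := Inp.vz
  have geo1 := Inp.geo1
  have bes := Pool.Agent.Helper79.SK.hBES
  have spl := Pool.Agent.Helper9.SK.hSPL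
  have gal := Pool.Agent.Helper69.SK.hGAL
  have aps := Pool.Agent.Helper90.SK.hAPS brun vz
  have wsm := Pool.Agent.Helper98.SK.hWSM Inp.winu aps vz
  have maj := Pool.Agent.Helper72.SK.hMAJ spl gal wsm vz
  have wey := Pool.Agent.Helper29.SK.hWEY geo1
  have csh := Pool.Agent.Helper6.SK.hCSH geo1 Inp.geo2 Inp.div
  have typ := Pool.Agent.Helper63.SK.hTYP wey csh
  have dic := Pool.Agent.Helper7.SK.hDIC typ
  have cir := Pool.Agent.Helper12.SK.hCIR bes maj dic
  have rho := Pool.Agent.Helper92.SK.hRHO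
  have dis := Pool.Agent.Helper67.SK.hDIS
  have bon := Pool.Agent.Helper16.SK.hBON brun
  have prd := Pool.Agent.Helper53.SK.hPRD rho vz
  have eer := Pool.Agent.Helper37.SK.hEER Inp.bv
  have low := Pool.Agent.Helper36.SK.hLOW rho dis bon prd eer Inp.pnt
  have num := Pool.Agent.Helper86.SK.hNUM
  have fn1 := Pool.Agent.Helper76.SK.hFN1 cir low num Inp.bump
  exact Pool.Agent.Helper42.SK.hFIN fn1

end Pool.Agent.Helper9.SK
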