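import Pool.Agent.Helper9.SK.St
import Pool.Agent.Helper48.BK.M_Brun
import Pool.Agent.Helper48.BK.M_Vz
import Pool.Agent.Helper48.BK.M_Geo1
import Pool.Agent.Helper48.BK.M_Geo2
import Pool.Agent.Helper48.BK.M_Div
import Pool.Agent.Helper27.BG.NT
import Pool.Agent.Helper58.SU.AllH
import Pool.Agent.Helper65.GW.M_MEA8

/-!
# Project SK: the inputs
-/

set_option autoImplicit false

namespace Pool.Agent.Helper9.SK.Inp

open Pool.Agent.Helper58.SU

theorem brun : Pool.Agent.Helper48.BK.StBrun := Pool.Agent.Helper48.BK.hBrun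
theorem vz : Pool.Agent.Helper48.BK.StVz := Pool.Agent.Helper48.BK.hVz
theorem geo1 : Pool.Agent.Helper48.BK.StGeo1 := Pool.Agent.Helper48.BK.hGeo1
theorem geo2 : Pool.Agent.Helper48.BK.StGeo2 := Pool.Agent.Helper48.BK.hGeo2
theorem div : Pool.Agent.Helper48.BK.StDiv := Pool.Agent.Helper48.BK.hDiv
theorem bv : Pool.Agent.Helper60.GP.StBVc := Pool.Agent.Helper27.BG.NT.bv
theorem pnt : Pool.Agent.Helper60.GP.StPNT := Pool.Agent.Helper27.BG.NT.pnt
theorem bump : Pool.Agent.Helper60.GP.StBump := Pool.Agent.Helper27.BG.NT.bump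
theorem winu : StWinu :=
  TopSU.winu (Pool.Agent.Helper65.GW.hMEA8 AllSU.bkb) AllSU.bkt AllSU.bks AllSU.bkb AllSU.dec4

end Pool.Agent.Helper9.SK.Inp
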